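import Pool.Agent.Work.MP_db9399_dp.Interface

/-!
# Block DEAL
-/

set_option autoImplicit false

namespace Pool.Agent.Work.MP_db9399_dp.helper22

open Finset Classical
open Pool.Agent.Work.MP_db9399_dp

namespace DEALAux

/-- the number of `i < N` with `i % g = a` -/
noncomputable def cm (g a N : ℕ) : ℕ := ((range N).filter fun i => i % g = a).card

theorem cm_eq (g a N : ℕ) (hg : 0 < g) (ha : a < g) :
    cm g a N = N / g + if a < N % g then 1 else 0 := by
  have h1 := Nat.count_modEq_card N hg a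
  rw [Nat.mod_eq_of_lt ha] at h1
  rw [← h1, Nat.count_eq_card_filter_range]
  unfold cm
  congr 1
  apply filter_congr
  intro i _
  rw [Nat.ModEq, Nat.mod_eq_of_lt ha]

theorem down {n : ℕ} (D : Finset (Fin n)) (h : ∀ i j : Fin n, j ≤ i → i ∈ D → j ∈ D) (i : Fin n) :
    i ∈ D ↔ (i : ℕ) < D.card := by
  constructor
  · intro hi
    have h1 : Finset.Iic i ⊆ D := fun j hj => h i j (Finset.mem_Iic.1 hj) hi
    have h2 := card_le_card h1
    rw [Fin.card_Iic] at h2
    omega
  · intro hi
    by_contra hcon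
    have h1 : D ⊆ Finset.Iio i := by
      intro j hj
      rw [Finset.mem_Iio]
      by_contra h2
      exact hcon (h j i (not_lt.1 h2) hj)
    have h2 := card_le_card h1
    rw [Fin.card_Iio] at h2
    omega

theorem cm_down {n : ℕ} (D : Finset (Fin n)) (h : ∀ i j : Fin n, j ≤ i → i ∈ D → j ∈ D) (g a : ℕ) :
    (D.filter fun i : Fin n => (i : ℕ) % g = a).card = cm g a D.card := by
  unfold cm
  apply card_bij (fun (i : Fin n) _ => (i : ℕ))
  · intro i hi
    rw [mem_filter] at hi ⊢
    exact ⟨mem_range.2 ((down D h i).1 hi.1), hi.2⟩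
  · intro i _ j _ hij
    exact Fin.ext hij
  · intro N hN
    rw [mem_filter, mem_range] at hN
    have h1 : D.card ≤ n := by
      have := card_le_univ D
      rwa [Fintype.card_fin] at this
    refine ⟨⟨N, by omega⟩, ?_, rfl⟩
    rw [mem_filter]
    exact ⟨(down D h _).2 hN.1, hN.2⟩

/-- the error in an initial segment -/
theorem cm_err (g a N : ℕ) (hg : 0 < g) (ha : a < g) :
    ∃ ε : ℤ, (cm g a N : ℤ) * g = N + ε ∧ -(a : ℤ) ≤ ε ∧ ε ≤ (g : ℤ) - a - 1 := by
  have h1 := cm_eq g a N hg ha
  have h2 := Nat.div_add_mod N g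
  have h3 := Nat.mod_lt N hg
  refine ⟨(if a < N % g then (g : ℤ) else 0) - (N % g : ℕ), ?_, ?_, ?_⟩
  · rw [h1]
    have h4 : (N : ℤ) = g * (N / g : ℕ) + (N % g : ℕ) := by exact_mod_cast h2.symm
    push_cast at h4 ⊢
    split_ifs <;> nlinarith
  · split_ifs <;> omega
  · split_ifs <;> omega

end DEALAux

open DEALAux in
theorem stmt_DEAL : Stmt_DEAL := by
  intro B Q _ _ vec s0 hs0 hB
  set n := Fintype.card B with hn
  set g := n / s0 with hg
  have hgpos : 0 < g := Nat.div_pos hB hs0
  -- the order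
  let eQ := Fintype.equivFin Q
  let eB := Fintype.equivFin B
  let f : Fin n → Fin (Fintype.card Q) := fun i => eQ (vec (eB.symm i))
  let π := Tuple.sort f
  have hmono : Monotone (f ∘ π) := Tuple.monotone_sort f
  let e : B ≃ Fin n := eB.trans π.symm
  have hfe : ∀ b, (f ∘ π) (e b) = eQ (vec b) := by
    intro b
    simp [f, e]
  have htr : ∀ (S : Finset B) (T : Finset (Fin n)), (∀ b, b ∈ S ↔ e b ∈ T) → S.card = T.card := by
    intro S T h
    apply card_bij (fun b _ => e b)
    · intro b hb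
      exact (h b).1 hb
    · intro b _ b' _ h
      exact e.injective h
    · intro i hi
      refine ⟨e.symm i, ?_, e.apply_symm_apply i⟩
      rw [h, e.apply_symm_apply]
      exact hi
  refine ⟨g, fun b => ⟨(e b : ℕ) % g, Nat.mod_lt _ hgpos⟩, hgpos, ?_, ?_⟩
  · intro a
    have h1 : (univ.filter fun b => (⟨(e b : ℕ) % g, Nat.mod_lt _ hgpos⟩ : Fin g) = a).card =
        cm g a n := by
      have h2 := cm_down (n := n) univ (fun _ _ _ _ => mem_univ _) g a
      rw [card_univ, Fintype.card_fin] at h2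
      rw [← h2]
      apply htr
      intro b
      rw [mem_filter, mem_filter, Fin.ext_iff]
      exact ⟨fun h => ⟨mem_univ _, h.2⟩, fun h => ⟨mem_univ _, h.2⟩⟩
    rw [h1, cm_eq g a n hgpos a.2]
    have h3 : g * s0 ≤ n := Nat.div_mul_le_self n s0
    have h4 : n < (g + 1) * s0 := by
      have h5 := Nat.lt_mul_div_succ n hs0
      calc n < s0 * (n / s0 + 1) := h5
        _ = (g + 1) * s0 := by rw [hg]; ring
    have h5 := Nat.div_add_mod n g
    have h6 := Nat.mod_lt n hgpos
    have h7 : s0 ≤ n / g := by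
      rw [Nat.le_div_iff_mul_le hgpos]
      calc s0 * g = g * s0 := by ring
        _ ≤ n := h3
    have h8 : (g + 1) * s0 ≤ 2 * s0 * g := by
      have : s0 ≤ s0 * g := Nat.le_mul_of_pos_right _ hgpos
      nlinarith
    constructor
    · omega
    · have h9 : n / g < 2 * s0 := by
        rw [Nat.div_lt_iff_lt_mul hgpos]
        omega
      split_ifs <;> omega
  · intro a c
    -- the class is the difference of two initial segments
    set D1 : Finset (Fin n) := univ.filter fun i => (f ∘ π) i < eQ c with hD1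
    set D2 : Finset (Fin n) := univ.filter fun i => (f ∘ π) i ≤ eQ c with hD2
    have hd1 : ∀ i j : Fin n, j ≤ i → i ∈ D1 → j ∈ D1 := by
      intro i j hij hi
      rw [hD1, mem_filter] at hi ⊢
      exact ⟨mem_univ _, lt_of_le_of_lt (hmono hij) hi.2⟩
    have hd2 : ∀ i j : Fin n, j ≤ i → i ∈ D2 → j ∈ D2 := by
      intro i j hij hi
      rw [hD2, mem_filter] at hi ⊢
      exact ⟨mem_univ _, le_trans (hmono hij) hi.2⟩
    have hsub : D1 ⊆ D2 := by
      intro i hi
      rw [hD1, mem_filter] at hi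
      rw [hD2, mem_filter]
      exact ⟨mem_univ _, hi.2.le⟩
    have hmem : ∀ i, i ∈ D2 \ D1 ↔ (f ∘ π) i = eQ c := by
      intro i
      rw [mem_sdiff, hD1, hD2, mem_filter, mem_filter]
      constructor
      · rintro ⟨h1, h2⟩
        exact le_antisymm h1.2 (not_lt.1 fun h3 => h2 ⟨mem_univ _, h3⟩)
      · intro h
        exact ⟨⟨mem_univ _, h.le⟩, fun h2 => absurd h2.2 (by rw [h]; exact lt_irrefl _)⟩
    have hc1 : (univ.filter fun b => vec b = c).card = D2.card - D1.card := by
      rw [← card_sdiff_of_subset hsub]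
      apply htr
      intro b
      rw [mem_filter, hmem, hfe, eQ.apply_eq_iff_eq]
      exact ⟨fun h => h.2, fun h => ⟨mem_univ _, h⟩⟩
    have hc2 : (univ.filter fun b => (⟨(e b : ℕ) % g, Nat.mod_lt _ hgpos⟩ : Fin g) = a ∧
        vec b = c).card = cm g a D2.card - cm g a D1.card := by
      rw [← cm_down D2 hd2, ← cm_down D1 hd1,
        ← card_sdiff_of_subset (filter_subset_filter _ hsub)]
      apply htr
      intro b
      have h9 := hmem (e b)
      rw [hfe, eQ.apply_eq_iff_eq, mem_sdiff] at h9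
      rw [mem_filter, mem_sdiff, mem_filter (p := fun i : Fin n => (i : ℕ) % g = a),
        mem_filter (p := fun i : Fin n => (i : ℕ) % g = a), ← h9, Fin.ext_iff]
      have h10 : b ∈ (univ : Finset B) := mem_univ _
      constructor
      · rintro ⟨_, h11, h12, h13⟩
        exact ⟨⟨h12, h11⟩, fun h14 => h13 h14.1⟩
      · rintro ⟨⟨h11, h12⟩, h13⟩
        exact ⟨h10, h12, h11, fun h14 => h13 ⟨h14, h12⟩⟩
    have hle1 : D1.card ≤ D2.card := card_le_card hsub
    have hle2 : cm g a D1.card ≤ cm g a D2.card := by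
      rw [← cm_down D2 hd2, ← cm_down D1 hd1]
      exact card_le_card (filter_subset_filter _ hsub)
    obtain ⟨ε1, h1, h2, h3⟩ := cm_err g a D1.card hgpos a.2
    obtain ⟨ε2, h4, h5, h6⟩ := cm_err g a D2.card hgpos a.2
    rw [hc1, hc2, Nat.cast_sub hle1, Nat.cast_sub hle2]
    have h7 : (((cm g a D2.card : ℕ) : ℤ) - (cm g a D1.card : ℕ)) * g - ((D2.card : ℤ) - D1.card) =
        ε2 - ε1 := by
      rw [sub_mul, h1, h4]
      ring
    have h8 : |(((cm g a D2.card : ℕ) : ℤ) - (cm g a D1.card : ℕ)) * g -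
        ((D2.card : ℤ) - D1.card)| ≤ g := by
      rw [h7, abs_le]
      constructor <;> omega
    exact_mod_cast h8

end Pool.Agent.Work.MP_db9399_dp.helper22
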