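import Pool.Agent.Work.MP_db9399_dp.Interface

/-!
# Block EQS
-/

set_option autoImplicit false

namespace Pool.Agent.Work.MP_db9399_dp.helper22

open Finset Classical
open Pool.Agent.Work.MP_db9399_dp
open Pool.Agent.Work.MP_db9399_bp_helper22 (Recol qs equitable)

universe u

/-- EQS -/
theorem stmt_EQS : Stmt_EQS.{u} := by
  intro W J B N _ _ _ _ g sub P fc nd sg hinv hdis hsg
  obtain ⟨P', hP', h⟩ := equitable (V := W) (β := B) (N := Option N) sub P hinv hdis
    (fun w => (fc w).map nd) (fun w => (fc w).elim 0 sg)
    (by
      intro w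
      rcases h : fc w with _ | j
      · left; rfl
      · exact hsg j)
  have hqs : ∀ (f : W → W) (x : N), qs (fun w => (fc w).map nd) (fun w => (fc w).elim 0 sg) f (some x) =
      sq fc nd sg f x := by
    intro f x
    unfold qs sq cnt
    have h1 : ∀ j, (sg j : ℤ) * ((univ.filter fun w => fc w = some j ∧ f w ≠ w).card : ℤ) =
        ∑ w ∈ univ.filter (fun w => fc w = some j), if f w = w then 0 else (fc w).elim 0 sg := by
      intro j
      rw [← filter_filter, card_filter]
      push_cast
      rw [mul_sum]
      apply sum_congr rfl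
      intro w hj
      rw [(mem_filter.1 hj).2]
      by_cases hw : f w = w <;> simp [hw]
    rw [sum_congr rfl (fun j _ => h1 j)]
    rw [← sum_biUnion]
    · have h2 : (univ.filter fun w => (fc w).map nd = some x) =
          (univ.filter fun j => nd j = x).biUnion fun j => univ.filter fun w => fc w = some j := by
        ext w
        rw [mem_filter, mem_biUnion]
        constructor
        · rintro ⟨_, h2⟩
          rw [Option.map_eq_some_iff] at h2
          obtain ⟨j, hj, hj2⟩ := h2
          exact ⟨j, mem_filter.2 ⟨mem_univ _, hj2⟩, mem_filter.2 ⟨mem_univ _, hj⟩⟩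
        · rintro ⟨j, hj, hw⟩
          refine ⟨mem_univ _, ?_⟩
          rw [(mem_filter.1 hw).2, Option.map_some, (mem_filter.1 hj).2]
      rw [← h2]
    · intro j _ j' _ hjj
      rw [Function.onFun, disjoint_left]
      intro w hw hw'
      rw [mem_filter] at hw hw'
      exact hjj (Option.some_injective _ (hw.2.symm.trans hw'.2))
  refine ⟨P', hP', ?_⟩
  intro b b' hbb x
  rw [← hqs, ← hqs]
  exact h b b' hbb (some x)

end Pool.Agent.Work.MP_db9399_dp.helper22
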