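import Pool.Agent.Work.MP_db9399_dp.Interface

/-!
# Block EQU
-/

set_option autoImplicit false

namespace Pool.Agent.Work.MP_db9399_dp.helper22

open Finset Classical
open Pool.Agent.Work.MP_db9399_dp
open Pool.Agent.Work.MP_db9399_bp_helper22 (Recol qs equitable)

universe u

/-- EQU -/
theorem stmt_EQU : Stmt_EQU.{u} := by
  intro W J B _ _ _ P fc hinv hdis
  obtain ⟨P', hP', h⟩ := equitable (V := W) (β := B) (N := Option J) (fun _ : B => ()) P hinv hdis
    fc (fun w => if fc w = none then 0 else 1)
    (by
      intro w
      by_cases h : fc w = none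
      · left; rw [if_pos h]
      · right; left; rw [if_neg h])
  have hqs : ∀ (f : W → W) (j : J), qs fc (fun w => if fc w = none then 0 else 1) f (some j) =
      (cnt fc f j : ℤ) := by
    intro f j
    unfold qs cnt
    rw [← filter_filter, card_filter]
    push_cast
    apply sum_congr rfl
    intro w hw
    rw [mem_filter] at hw
    by_cases h1 : f w = w <;> simp [h1, hw.2]
  refine ⟨P', hP', ?_⟩
  intro b b' j
  have h1 := h b b' rfl (some j)
  rw [hqs, hqs, abs_le] at h1
  omega

end Pool.Agent.Work.MP_db9399_dp.helper22
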