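import Pool.Agent.Work.MP_db9399_dp.Interface

/-!
# Block TSUM
-/

set_option autoImplicit false

namespace Pool.Agent.Work.MP_db9399_dp.helper22

open Finset Classical
open Pool.Agent.Work.MP_db9399_all (nb)
open Pool.Agent.Work.MP_db9399_dp

universe u

namespace TSUMAux

variable {V : Type u} [Fintype V] {I : Type} [Fintype I]

theorem card_sum {α : Type*} (s : Finset α) (p : α → Prop) (r : ℝ) :
    ((s.filter p).card : ℝ) - r * s.card = ∑ x ∈ s, ((if p x then (1 : ℝ) else 0) - r) := by
  rw [sum_sub_distrib, sum_const, nsmul_eq_mul, ← sum_filter, sum_const, nsmul_eq_mul]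
  ring

theorem fiber {α : Type*} (S : Finset α) (cl : α → I) (f : α → ℝ) (s : I → ℝ) :
    ∑ v ∈ S, s (cl v) * f v = ∑ A, s A * ∑ v ∈ S.filter (fun v => cl v = A), f v := by
  rw [← sum_fiberwise S cl]
  apply sum_congr rfl
  intro A _
  rw [mul_sum]
  apply sum_congr rfl
  intro v hv
  rw [(mem_filter.1 hv).2]

end TSUMAux

open TSUMAux in
theorem stmt_TSUM : Stmt_TSUM.{u} := by
  intro V _ I 𝒯 _ _ F Z cl al ρ m Bd L τ h s hs T
  set O := univ.filter (fun v : V => v ∉ Z) with hO
  let g : V → V → ℝ := fun v w => (if τ v w = T then (1 : ℝ) else 0) - ρ T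
  -- the two parts
  have h1 : ∑ v ∈ O, s (cl v) * ((nb F v).filter (fun w => τ v w = T)).card -
      ρ T * ∑ v ∈ O, s (cl v) * (nb F v).card =
      ∑ v ∈ O, s (cl v) * ∑ w ∈ (nb F v).filter (fun w => w ∉ Z), g v w +
      ∑ v ∈ O, s (cl v) * ∑ w ∈ (nb F v).filter (fun w => ¬ (w ∉ Z)), g v w := by
    rw [mul_sum, ← sum_sub_distrib, ← sum_add_distrib]
    apply sum_congr rfl
    intro v _
    rw [← mul_add, sum_filter_add_sum_filter_not, ← card_sum]
    ring
  have h2 : ∑ v ∈ O, s (cl v) * ∑ w ∈ (nb F v).filter (fun w => w ∉ Z), g v w =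
      ∑ A, ∑ B, s A * ((((pb F Z cl A B).filter (fun p => τ p.1 p.2 = T)).card : ℝ) -
        ρ T * (pb F Z cl A B).card) := by
    rw [fiber]
    apply sum_congr rfl
    intro A _
    rw [← mul_sum]
    congr 1
    have h3 : ∀ v ∈ O.filter (fun v => cl v = A), ∑ w ∈ (nb F v).filter (fun w => w ∉ Z), g v w =
        ∑ B, ∑ w ∈ ((nb F v).filter (fun w => w ∉ Z)).filter (fun w => cl w = B), g v w := by
      intro v _
      exact (sum_fiberwise _ cl (g v)).symm
    rw [sum_congr rfl h3, sum_comm]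
    apply sum_congr rfl
    intro B _
    rw [card_sum]
    rw [sum_sigma']
    apply sum_bij (fun x _ => (x.1, x.2))
    · rintro ⟨v, w⟩ hx
      simp only [mem_sigma, mem_filter, hO, nb] at hx
      simp only [pb, mem_filter, mem_univ, true_and]
      tauto
    · rintro ⟨v, w⟩ _ ⟨v', w'⟩ _ hxy
      simp only [Prod.mk.injEq] at hxy
      rw [hxy.1, hxy.2]
    · rintro ⟨v, w⟩ hx
      simp only [pb, mem_filter, mem_univ, true_and] at hx
      refine ⟨⟨v, w⟩, ?_, rfl⟩
      simp only [mem_sigma, mem_filter, hO, nb, mem_univ, true_and]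
      tauto
    · rintro ⟨v, w⟩ _
      rfl
  have h4 : ∑ v ∈ O, s (cl v) * ∑ w ∈ (nb F v).filter (fun w => ¬ (w ∉ Z)), g v w =
      ∑ z ∈ Z, ∑ A, s A * ((((zb F Z cl z A).filter (fun w => τ z w = T)).card : ℝ) -
        ρ T * (zb F Z cl z A).card) := by
    have h5 : ∑ v ∈ O, s (cl v) * ∑ w ∈ (nb F v).filter (fun w => ¬ (w ∉ Z)), g v w =
        ∑ z ∈ Z, ∑ v ∈ (nb F z).filter (fun w => w ∉ Z), s (cl v) * g z v := by
      rw [sum_congr rfl (fun v _ => mul_sum _ _ (s (cl v))), sum_sigma', sum_sigma']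
      apply sum_bij (fun x _ => ⟨x.2, x.1⟩)
      · rintro ⟨v, w⟩ hx
        simp only [mem_sigma, mem_filter, hO, nb, mem_univ, true_and, not_not] at hx ⊢
        exact ⟨hx.2.2, hx.2.1.symm, hx.1⟩
      · rintro ⟨v, w⟩ _ ⟨v', w'⟩ _ hxy
        simp only [Sigma.mk.injEq, heq_eq_eq] at hxy
        rw [hxy.1, hxy.2]
      · rintro ⟨z, v⟩ hx
        simp only [mem_sigma, mem_filter, hO, nb, mem_univ, true_and, not_not] at hx
        refine ⟨⟨v, z⟩, ?_, rfl⟩
        simp only [mem_sigma, mem_filter, hO, nb, mem_univ, true_and, not_not]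
        exact ⟨hx.2.2, hx.2.1.symm, hx.1⟩
      · rintro ⟨v, w⟩ _
        simp only [g]
        rw [h.sym v w]
    rw [h5]
    apply sum_congr rfl
    intro z _
    rw [fiber]
    apply sum_congr rfl
    intro A _
    rw [card_sum]
    congr 1
    apply sum_congr _ (fun _ _ => rfl)
    ext v
    simp only [zb, mem_filter]
    tauto
  rw [h1, h2, h4]
  refine (abs_add_le _ _).trans (add_le_add ?_ ?_)
  · refine (abs_sum_le_sum_abs _ _).trans ?_
    have h6 : ∀ A ∈ (univ : Finset I), |∑ B, s A * ((((pb F Z cl A B).filter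
        (fun p => τ p.1 p.2 = T)).card : ℝ) - ρ T * (pb F Z cl A B).card)| ≤
        Fintype.card I * (L + 2) := by
      intro A _
      refine (abs_sum_le_sum_abs _ _).trans ?_
      have h7 : ∀ B ∈ (univ : Finset I), |s A * ((((pb F Z cl A B).filter
          (fun p => τ p.1 p.2 = T)).card : ℝ) - ρ T * (pb F Z cl A B).card)| ≤ L + 2 := by
        intro B _
        rw [abs_mul]
        have h8 := h.blk A B T
        have h9 := abs_nonneg ((((pb F Z cl A B).filter (fun p => τ p.1 p.2 = T)).card : ℝ) -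
          ρ T * (pb F Z cl A B).card)
        have h10 := hs A
        have h11 := abs_nonneg (s A)
        nlinarith
      refine (sum_le_sum h7).trans ?_
      rw [sum_const, nsmul_eq_mul, card_univ]
    refine (sum_le_sum h6).trans ?_
    rw [sum_const, nsmul_eq_mul, card_univ]
    apply le_of_eq
    ring
  · refine (abs_sum_le_sum_abs _ _).trans ?_
    have h6 : ∀ z ∈ Z, |∑ A, s A * ((((zb F Z cl z A).filter (fun w => τ z w = T)).card : ℝ) -
        ρ T * (zb F Z cl z A).card)| ≤
        Fintype.card I * (5 * Fintype.card 𝒯 + 2 + bd F Z cl Bd z) := by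
      intro z hz
      refine (abs_sum_le_sum_abs _ _).trans ?_
      have h7 : ∀ A ∈ (univ : Finset I), |s A * ((((zb F Z cl z A).filter
          (fun w => τ z w = T)).card : ℝ) - ρ T * (zb F Z cl z A).card)| ≤
          5 * Fintype.card 𝒯 + 2 + bd F Z cl Bd z := by
        intro A _
        rw [abs_mul]
        have h8 := h.zbl z hz A T
        have h9 := abs_nonneg ((((zb F Z cl z A).filter (fun w => τ z w = T)).card : ℝ) -
          ρ T * (zb F Z cl z A).card)
        have h10 := hs A
        have h11 := abs_nonneg (s A)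
        nlinarith
      refine (sum_le_sum h7).trans ?_
      rw [sum_const, nsmul_eq_mul, card_univ]
    refine (sum_le_sum h6).trans ?_
    rw [← mul_sum, sum_add_distrib, sum_const, nsmul_eq_mul]
    apply le_of_eq
    ring

end Pool.Agent.Work.MP_db9399_dp.helper22
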